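import Mathlib
import Pool.Agent.H.MP_550623_an.A

set_option autoImplicit false
open Filter Topology Set

namespace Pool.Agent.Results.MP_550623_an.NotHypercyclic

lemma aux {𝕂 E : Type} [RCLike 𝕂] [NormedAddCommGroup E] [NormedSpace 𝕂 E] [CompleteSpace E]
    (X : Submodule 𝕂 E) (T : E →L[𝕂] E) (b : E) (h1 : IsClosed (X : Set E))
    (h2 : TopologicalSpace.IsSeparable (X : Set E)) (h3 : ∀ x ∈ X, T x ∈ X)
    (h4 : (X : Set E) ⊆ closure (T '' X))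
    (h5 : (X : Set E) ⊆ closure {x | x ∈ X ∧ ∃ m, (T ^ (m + 1)) x = 0}) (h6 : b ∈ X)
    (h7 : ∀ (y : E) (N : ℕ), 1 ≤ ‖y‖ + ‖((1 + T) ^ (N + 1)) y - b‖) :
    ∃ (X : Type) (_ : NormedAddCommGroup X) (_ : NormedSpace 𝕂 X) (_ : CompleteSpace X)
      (_ : TopologicalSpace.SeparableSpace X) (_ : Nontrivial X) (T : X →L[𝕂] X),
      DenseRange T ∧ Dense {x : X | ∃ n : ℕ, 1 ≤ n ∧ (T ^ n) x = 0} ∧
        ¬ ∃ x : X, DenseRange fun n : ℕ => ((1 + T) ^ n) x := by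
  have hb : (⟨b, h6⟩ : X) ≠ 0 := fun h => by
    have := h7 0 0
    rw [show b = 0 from congrArg Subtype.val h] at this
    norm_num at this
  have : Nontrivial X := ⟨⟨_, _, hb⟩⟩
  let R : X →L[𝕂] X := T.restrict h3
  have e1 : ∀ (n : ℕ) (x : X), ((R ^ n) x : E) = (T ^ n) x := fun n => by
    induction n with
    | zero => intro x; rfl
    | succ n ih => intro x; rw [pow_succ, pow_succ]; exact ih (R x)
  have e2 : ∀ (n : ℕ) (x : X), (((1 + R) ^ n) x : E) = ((1 + T) ^ n) x := fun n => by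
    induction n with
    | zero => intro x; rfl
    | succ n ih => intro x; rw [pow_succ, pow_succ]; exact ih ((1 + R) x)
  refine ⟨X, inferInstance, inferInstance, h1.completeSpace_coe, h2.separableSpace, this, R,
    Subtype.dense_iff.2 (h4.trans (closure_mono ?_)),
    Subtype.dense_iff.2 (h5.trans (closure_mono ?_)), ?_⟩
  · rintro _ ⟨x, hx, rfl⟩
    exact ⟨_, ⟨⟨x, hx⟩, rfl⟩, rfl⟩
  · rintro x ⟨hx, m, hm⟩
    exact ⟨⟨x, hx⟩, ⟨m + 1, by omega, Subtype.ext ((e1 _ _).trans hm)⟩, rfl⟩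
  · rintro ⟨x, hx⟩
    obtain ⟨n, hn⟩ := hx.exists_dist_lt 0 (show (0 : ℝ) < 1 / 2 by norm_num)
    have := Module.punctured_nhds_neBot 𝕂 X
    have hd := Dense.sdiff_finite hx ((finite_le_nat n).image fun k => ((1 + R) ^ k) x)
    obtain ⟨_, ⟨⟨k, rfl⟩, hk⟩, h⟩ := hd.exists_dist_lt ⟨b, h6⟩ (show (0 : ℝ) < 1 / 2 by norm_num)
    have hk : n < k := not_le.1 fun h => hk ⟨k, h, rfl⟩
    obtain ⟨N, rfl⟩ : ∃ N, k = N + 1 + n := ⟨k - n - 1, by omega⟩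
    have h8 := h7 (((1 + T) ^ n) x) N
    rw [dist_comm, Subtype.dist_eq, dist_eq_norm, e2] at hn h
    rw [pow_add, mul_apply_eq_comp] at h
    rw [ZeroMemClass.coe_zero, sub_zero] at hn
    linarith

theorem result (𝕂 : Type) [RCLike 𝕂] :
    ∃ (X : Type) (_ : NormedAddCommGroup X) (_ : NormedSpace 𝕂 X) (_ : CompleteSpace X)
      (_ : TopologicalSpace.SeparableSpace X) (_ : Nontrivial X) (T : X →L[𝕂] X),
      DenseRange T ∧ Dense {x : X | ∃ n : ℕ, 1 ≤ n ∧ (T ^ n) x = 0} ∧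
        ¬ ∃ x : X, DenseRange fun n : ℕ => ((1 + T) ^ n) x := by
  obtain ⟨X, T, b, h1, h2, h3, h4, h5, h6, h7⟩ := H.MP_550623_an.main (𝕂 := 𝕂)
  exact aux X T b h1 h2 h3 h4 h5 h6 h7

end Pool.Agent.Results.MP_550623_an.NotHypercyclic
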